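import Pool.Agent.Helper30_Simp2.Stmts
import Pool.Agent.Helper32_Simp.ConeF

/-!
# Module ZSC: the scalar version of the theorem on the zeta function
-/

set_option autoImplicit false
set_option linter.unusedVariables false
set_option linter.unusedSectionVars false

namespace Pool.Agent.Helper30_Simp2.H28

open PowerSeries Finset Pool.Agent.Helper6_Mono Pool.Agent.Helper30_Simp

section cells

variable {σ : Type} [Fintype σ] (M : Finset (σ →₀ ℕ)) (K : Type) [CommRing K]

open scoped Classical in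
/-- the coordinate part of a cell -/
noncomputable def Wj (J : Finset σ) : MvPolynomial (Wa M) K :=
  ∏ i : σ, if i ∈ J then 1 - MvPolynomial.X (Sum.inl i) else MvPolynomial.X (Sum.inl i)

theorem cellP_empty (J : Finset σ) : cellP M K ∅ J = ET M K * Wj M K J := by
  classical
  unfold cellP ET Wj
  congr 1

theorem sum_prod_ite {R : Type} [CommRing R] (f g : M → R) [DecidableEq (σ →₀ ℕ)] :
    ∑ I ∈ M.powerset, ∏ α : M, (if (α : σ →₀ ℕ) ∈ I then f α else g α) =
      ∏ α : M, (f α + g α) := by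
  classical
  rw [Finset.prod_add]
  refine Finset.sum_nbij' (fun I => univ.filter fun α : M => (α : σ →₀ ℕ) ∈ I)
    (fun t => t.map (Function.Embedding.subtype _)) ?_ ?_ ?_ ?_ ?_
  · intro I _
    simp
  · intro t _
    rw [Finset.mem_powerset]
    intro α hα
    rw [Finset.mem_map] at hα
    obtain ⟨β, _, rfl⟩ := hα
    exact β.2
  · intro I hI
    rw [Finset.mem_powerset] at hI
    ext α
    simp only [Finset.mem_map, Finset.mem_filter, Finset.mem_univ, true_and,
      Function.Embedding.subtype_apply, Subtype.exists, exists_and_left, exists_prop,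
      exists_eq_right_right]
    constructor
    · rintro ⟨h, _⟩
      exact h
    · intro h
      exact ⟨h, hI h⟩
  · intro t _
    ext α
    simp
  · intro I _
    rw [Finset.prod_ite]
    congr 1
    refine Finset.prod_congr ?_ fun _ _ => rfl
    ext α
    simp

theorem sum_cellP (J : Finset σ) : ∑ I ∈ M.powerset, cellP M K I J = Wj M K J := by
  classical
  unfold cellP
  rw [← Finset.sum_mul]
  have h := sum_prod_ite M (fun α : M => (1 - MvPolynomial.X (Sum.inr α) : MvPolynomial (Wa M) K))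
    (fun α : M => MvPolynomial.X (Sum.inr α))
  have h2 : ∏ α : M, ((1 - MvPolynomial.X (Sum.inr α) : MvPolynomial (Wa M) K) +
      MvPolynomial.X (Sum.inr α)) = 1 := by
    refine Finset.prod_eq_one fun α _ => by ring
  rw [h2] at h
  have h3 : (∑ I ∈ M.powerset, ∏ α : M, if (α : σ →₀ ℕ) ∈ I then
      (1 - MvPolynomial.X (Sum.inr α) : MvPolynomial (Wa M) K) else
        MvPolynomial.X (Sum.inr α)) = 1 := h
  unfold Wj
  convert one_mul _ using 2

end cells

theorem zsc (hA : ZAlgStmt) (hG : ZGStmt) : ZScStmt := by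
  classical
  intro σ _ M hM x hx hUB c y1 y0 h1 h0 hy1 hy0
  obtain ⟨hid, hadd, hC, hET, hcell⟩ := hG σ M hM
  obtain ⟨a, ha1, ha2, ha3, ha4⟩ := hid (steps ((slopes M ∪ {1}) \ {x}))
  have hunit : ∀ n : ℕ, n ≠ 0 → IsUnit (1 - (X : ℤ⟦X⟧) ^ n) := by
    intro n hn
    rw [PowerSeries.isUnit_iff_constantCoeff]
    simp [hn]
  have hfac : ∀ (κ : σ → ℕ) (N : ℕ), IsFacet M κ → (∃ α ∈ face M κ, dot κ α = N) →
      ((∑ i, κ i : ℕ) : ℚ) ≠ x * N →
      ∀ p, (ET M ℤ⟦X⟧ ^ N - MvPolynomial.C ((X : ℤ⟦X⟧) ^ (∑ i, κ i))) * p ∈ a → p ∈ a := by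
    rintro κ N hκ ⟨α, hα, hN⟩ hne p hp
    have hN0 : 0 < N := by
      rw [← hN]
      exact hκ.1 α hα.1
    refine ha3 _ N ?_ p hp
    refine ⟨hN0, ?_, ?_⟩
    · left
      refine ⟨κ, hκ, α, hα, ?_⟩
      rw [hN]
    · intro h
      rw [Set.mem_singleton_iff] at h
      apply hne
      have : (N : ℚ) ≠ 0 := by exact_mod_cast hN0.ne'
      rw [← h]
      field_simp
  -- the two elements of the ideal
  have hT1 := hA σ M hM x ℤ⟦X⟧ X a hunit ha1 ha2 hfac hUB (fun I J => y1 I J - X * c J) (by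
    intro I J A j hv
    have := hy1 I J A j hv
    linear_combination this)
  have hT0 := hA σ M hM x ℤ⟦X⟧ X a hunit ha1 ha2 hfac hUB (fun I J => y0 I J - X * c J) (by
    intro I J A j hv
    have := hy0 I J A j hv
    linear_combination this)
  set T1 := ∑ I ∈ M.powerset, ∑ J ∈ (univ : Finset σ).powerset,
        MvPolynomial.C (y1 I J - X * c J) * cellP M ℤ⟦X⟧ I J with hT1def
  set T0 := ∑ I ∈ M.powerset, ∑ J ∈ (univ : Finset σ).powerset,
        MvPolynomial.C (y0 I J - X * c J) * cellP M ℤ⟦X⟧ I J with hT0def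
  have hp : (ET M ℤ⟦X⟧ * T1 + (MvPolynomial.C (-X) * T1 + MvPolynomial.C X * T0)) ∈ a :=
    a.add_mem (a.mul_mem_left _ hT1) (a.add_mem (a.mul_mem_left _ hT1) (a.mul_mem_left _ hT0))
  have hRQ := ha4 _ hp
  -- linearity
  have hval0 : ∀ N, val M (0 : MvPolynomial (Wa M) ℤ⟦X⟧) 0 N = 0 := by
    intro N
    have := hadd 0 0 0 N
    rw [add_zero] at this
    exact left_eq_add.1 this
  have hsum : ∀ {ι : Type} (s : Finset ι) (F : ι → MvPolynomial (Wa M) ℤ⟦X⟧) (N : ℕ),
      val M (∑ i ∈ s, F i) 0 N = ∑ i ∈ s, val M (F i) 0 N := by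
    intro ι s F N
    induction s using Finset.induction_on with
    | empty => simp [hval0]
    | insert i s hi ih => rw [Finset.sum_insert hi, Finset.sum_insert hi, hadd, ih]
  set g : Finset (σ →₀ ℕ) → Finset σ → ℕ → ℤ⟦X⟧ :=
    fun I J N => val M (cellP M ℤ⟦X⟧ I J) 0 N with hg
  have hV : ∀ (z : Finset (σ →₀ ℕ) → Finset σ → ℤ⟦X⟧) (N : ℕ),
      val M (∑ I ∈ M.powerset, ∑ J ∈ (univ : Finset σ).powerset,
        MvPolynomial.C (z I J) * cellP M ℤ⟦X⟧ I J) 0 N =
      ∑ I ∈ M.powerset, ∑ J ∈ (univ : Finset σ).powerset, z I J * g I J N := by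
    intro z N
    rw [hsum]
    refine Finset.sum_congr rfl fun I _ => ?_
    rw [hsum]
    refine Finset.sum_congr rfl fun J _ => ?_
    rw [hC]
  -- the relation between the cells with `I = ∅` and the others
  have hrel : ∀ J N, g ∅ J N = ∑ I ∈ M.powerset, g I J (N + 1) := by
    intro J N
    simp only [hg]
    rw [← hsum, sum_cellP, cellP_empty, hET]
  have hgf : ∀ I ∈ M.powerset, I ≠ ∅ → ∀ J N, gfc M I J N = g I J N := by
    intro I hI hI0 J N
    rw [hg]
    exact (hcell I J (Finset.mem_powerset.1 hI) (Finset.nonempty_iff_ne_empty.2 hI0) N).symm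
  -- the step with slope one
  refine RQ.step _ 1 1 ?_ ?_
  · refine ⟨one_pos, ?_, ?_⟩
    · right
      simp
    · intro h
      rw [Set.mem_singleton_iff] at h
      apply hx
      rw [← h]
      norm_num
  refine H32.RQ_congr hRQ fun m => ?_
  rw [hadd, hadd, hET, hC, hC, hT1def, hT0def, hV, hV, hV]
  have key : ∀ I ∈ M.powerset, ∀ J ∈ (univ : Finset σ).powerset,
      (y1 I J - X * c J) * g I J (m + 1) + (-X * ((y1 I J - X * c J) * g I J m) +
        X * ((y0 I J - X * c J) * g I J m)) =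
      ((if I = ∅ then 0 else y1 I J * gfc M I J (m + 1) +
          y0 I J * ∑ l ∈ range (m + 1), X ^ (m + 1 - l) * gfc M I J l) -
        X ^ 1 * (if I = ∅ then 0 else y1 I J * gfc M I J m +
          y0 I J * ∑ l ∈ range m, X ^ (m - l) * gfc M I J l)) +
      (-(X * c J * g I J (m + 1)) + if I = ∅ then X * c J * g ∅ J m else 0) := by
    intro I hI J _
    by_cases h : I = ∅
    · subst h
      simp only [if_true, h1, h0]
      ring
    · simp only [if_neg h, hgf I hI h]
      have h2 : ∑ l ∈ range (m + 1), (X : ℤ⟦X⟧) ^ (m + 1 - l) * g I J l =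
          X * (∑ l ∈ range m, X ^ (m - l) * g I J l) + X * g I J m := by
        rw [Finset.sum_range_succ, Finset.mul_sum]
        congr 1
        · refine Finset.sum_congr rfl fun l hl => ?_
          rw [Finset.mem_range] at hl
          rw [← mul_assoc, ← pow_succ']
          congr 2
          omega
        · rw [Nat.add_sub_cancel_left, pow_one]
      rw [h2]
      ring
  have hsplit : ∀ F : Finset (σ →₀ ℕ) → Finset σ → ℤ⟦X⟧,
      ∀ G : Finset (σ →₀ ℕ) → Finset σ → ℤ⟦X⟧, ∀ H : Finset (σ →₀ ℕ) → Finset σ → ℤ⟦X⟧,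
      (∑ I ∈ M.powerset, ∑ J ∈ (univ : Finset σ).powerset, F I J) +
        (-X * (∑ I ∈ M.powerset, ∑ J ∈ (univ : Finset σ).powerset, G I J) +
        X * ∑ I ∈ M.powerset, ∑ J ∈ (univ : Finset σ).powerset, H I J) =
      ∑ I ∈ M.powerset, ∑ J ∈ (univ : Finset σ).powerset,
        (F I J + (-X * G I J + X * H I J)) := by
    intro F G H
    simp_rw [Finset.sum_add_distrib, Finset.mul_sum]
  rw [hsplit, Finset.sum_congr rfl fun I hI => Finset.sum_congr rfl fun J hJ => key I hI J hJ]
  simp_rw [Finset.sum_add_distrib, Finset.sum_sub_distrib]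
  have hzero : ∑ I ∈ M.powerset, ∑ J ∈ (univ : Finset σ).powerset, -(X * c J * g I J (m + 1)) +
      ∑ I ∈ M.powerset, ∑ J ∈ (univ : Finset σ).powerset,
        (if I = ∅ then X * c J * g ∅ J m else 0) = 0 := by
    rw [Finset.sum_comm]
    have e1 : ∑ I ∈ M.powerset, ∑ J ∈ (univ : Finset σ).powerset,
        (if I = ∅ then X * c J * g ∅ J m else 0) =
        ∑ J ∈ (univ : Finset σ).powerset, X * c J * g ∅ J m := by
      rw [Finset.sum_comm]
      refine Finset.sum_congr rfl fun J _ => ?_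
      rw [Finset.sum_ite_eq' M.powerset ∅ (fun _ => X * c J * g ∅ J m), if_pos]
      exact Finset.empty_mem_powerset M
    rw [e1, ← Finset.sum_add_distrib]
    refine Finset.sum_eq_zero fun J _ => ?_
    rw [hrel J m, Finset.sum_neg_distrib, ← Finset.mul_sum]
    ring
  rw [hzero, add_zero]
  simp_rw [Finset.mul_sum]

end Pool.Agent.Helper30_Simp2.H28
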